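import Pool.Agent.R858.QD4

/-!
# MP_d64a6e_ag: a smooth quasi-diagonal of genus two in `E × E`

Let `E` be the elliptic curve `v² = u (u + 2) (u² - 3)`, let `S` be the curve `y² = x⁶ + 1` of genus two
and let `ω` be a primitive sixth root of unity. For `ε = 1` and `ε = ω` put `t = ε x`; there is a
morphism of degree two

`f_ε : S → E`, `u = t + 1 / t`, `v = y (1 + t) / t²`.

The involutions of `S` over `E` are `(x, y) ↦ (1 / x, y / x³)` and `(x, y) ↦ (1 / (ω² x), -y / x³)`. Their
product `(x, y) ↦ (ω² x, -y)` has no fixed points, so `f_1` and `f_ω` separate the points of `S`;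
they also separate tangent vectors, so that `(f_1, f_ω) : S → E × E` is a closed embedding. Let
`L = O_E(D)` be the line bundle of degree two belonging to the divisor `D` of poles of `u`. Both pull
backs of `D` are the divisor `{x = 0} + {x = ∞}`, so `f_1^* L = f_ω^* L`, and `S` is a quasi-diagonal
over `(E, L)`. Repeating `f_ω` gives quasi-diagonals in `E^n` for all `n ≥ 2`.

Curves are given by their function fields, see `Pool/Agent/Helper395/CS/Defs.lean`: the closed points
are the normalised discrete valuations of the function field over `ℂ`, and a nonconstant morphism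
`S → E` is an embedding of the function field of `E` into that of `S`.
-/

open scoped WithZero Polynomial IntermediateField

namespace Pool.Agent.Results.MP_d64a6e_ag.GenusTwo

open Pool.Agent.Helper395.CS hiding genus map_mul map_inv
open Pool.Agent.Helper395.BC
open Pool.Agent.R858.BN
open Pool.Agent.R858.QD
open Pool.Agent.Y803.FD (Kf xf yf Pf Pf_irreducible hypf ιf phi phi_x phi_y yf_sq xf_transcendental
  adjoinf Kf_isCurve)
open Pool.Agent.W518.SMR (lpole lpole_val)

section

variable {F K : Type} [Field F] [Algebra ℂ F] [Field K] [Algebra ℂ K] {n : ℕ}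

/-- Let `E` and `S` be the curves with function fields `F` and `K`, and let `φ i` describe morphisms
`f_i : S → E`. The morphism `(f_1, …, f_n) : S → E^n` is a closed embedding: it separates the points
and at every point `v` one of the `f_i` is unramified (so that the tangent vectors are separated). -/
structure IsClosedEmbedding (φ : Fin n → F →ₐ[ℂ] K) : Prop where
  injective : ∀ v w : Point K,
    (∀ i, ∃ p : Point F, LiesOver (φ i) v p ∧ LiesOver (φ i) w p) → v = w
  unramified : ∀ v : Point K, ∃ i, ∃ z : F, v.ord (φ i z) = 1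

/-- `M` is the pull back of `L` under the morphism given by `φ`: at every point `v`, with image `p`,
the stalk of `M` is generated by the pull back of the generator of the stalk of `L` at `p`. -/
def IsPullback (φ : F →ₐ[ℂ] K) (L : LineBundle F) (M : LineBundle K) : Prop :=
  ∀ (v : Point K) (p : Point F), LiesOver φ v p →
    v.val (M.frame v : K) = v.val (φ (L.frame p : F))

/-- The line bundles `M^m` and `N^m` are isomorphic, by multiplication with the rational function
`c`. -/
def PowersIso (m : ℕ) (M N : LineBundle K) : Prop :=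
  ∃ c : K, c ≠ 0 ∧ ∀ v : Point K,
    v.val c * v.val (M.frame v : K) ^ m = v.val (N.frame v : K) ^ m

/-- `(f_1, …, f_n) : S → E^n` embeds `S` as a smooth quasi-diagonal over `(E, L)`. -/
structure IsSmoothQuasiDiagonal (φ : Fin n → F →ₐ[ℂ] K) (L : LineBundle F) : Prop where
  embedding : IsClosedEmbedding φ
  torsion : ∃ M : Fin n → LineBundle K, (∀ i, IsPullback (φ i) L (M i)) ∧
    ∀ i j, ∃ m : ℕ, 0 < m ∧ PowersIso m (M i) (M j)

end

/-- There are curves `E` of genus one and `S` of genus two, a line bundle `L` of degree two on `E` and,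
for every `n ≥ 2`, a smooth quasi-diagonal over `(E, L)` in `E^n` isomorphic to `S`. One can take
`E : v² = (u + 2) (u³ - 3 u)` and `S : y² = x⁶ + 1`. The first two clauses make sure that every point
of `S` has exactly one image under each of the morphisms. -/
theorem result :
    (∀ (F K : Type) [Field F] [Algebra ℂ F] [Field K] [Algebra ℂ K] (φ : F →ₐ[ℂ] K),
      IsCurve F → IsCurve K → ∀ v : Point K, ∃! p : Point F, LiesOver φ v p) ∧
    ∃ (F K : Type) (_ : Field F) (_ : Algebra ℂ F) (_ : Field K) (_ : Algebra ℂ K),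
      IsCurve F ∧ genus F = 1 ∧ IsCurve K ∧ genus K = 2 ∧
      (∃ u v : F, IntermediateField.adjoin ℂ {u, v} = ⊤ ∧ v ^ 2 = (u + 2) * (u ^ 3 - 3 * u)) ∧
      (∃ x y : K, IntermediateField.adjoin ℂ {x, y} = ⊤ ∧ y ^ 2 = x ^ 6 + 1) ∧
      ∃ L : LineBundle F, L.degree = 2 ∧
        ∀ n : ℕ, 2 ≤ n → ∃ φ : Fin n → F →ₐ[ℂ] K, IsSmoothQuasiDiagonal φ L := by
  refine ⟨fun F K _ _ _ _ φ hF hK v => existsUnique_image hF hK φ v, ?_⟩
  have h6 : Fact (Irreducible (Pf f6)) :=
    ⟨Pf_irreducible f6_sep (by rw [f6_natDegree]; norm_num)⟩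
  have h4 : Fact (Irreducible (Pf f4)) :=
    ⟨Pf_irreducible f4_sep (by rw [f4_natDegree]; norm_num)⟩
  have H := hypf (f := f6) f6_sep
  have H4 := hypf (f := f4) f4_sep
  obtain ⟨ω, hω3, hω2⟩ : ∃ ω : ℂ, ω ^ 3 = -1 ∧ ω ^ 2 ≠ 1 := by
    have h1 := Complex.isPrimitiveRoot_exp 6 (by norm_num)
    set ζ := Complex.exp (2 * Real.pi * Complex.I / ((6 : ℕ) : ℂ))
    refine ⟨ζ, ?_, fun h => ?_⟩
    · have h2 : (ζ ^ 3 - 1) * (ζ ^ 3 + 1) = 0 := by
        have := h1.pow_eq_one
        linear_combination this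
      rcases mul_eq_zero.1 h2 with h3 | h3
      · have := h1.dvd_of_pow_eq_one 3 (by linear_combination h3)
        omega
      · linear_combination h3
    · have := h1.dvd_of_pow_eq_one 2 h
      omega
  have hω6 : ω ^ 6 = 1 := by
    have : ω ^ 6 = (ω ^ 3) ^ 2 := by ring
    rw [this, hω3]
    norm_num
  have hω0 : ω ≠ 0 := by
    rintro rfl
    norm_num at hω3
  -- the coordinates and the morphisms
  set x := xf f6 with hx
  set y := yf f6 with hy
  set u := xf f4 with hu
  have hu0 : u ≠ 0 := H4.x_ne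
  let ψ : ∀ ε : ℂ, ε ≠ 0 → ε ^ 6 = 1 → (Kf f4 →ₐ[ℂ] Kf f6) := fun ε h0 h1 =>
    phi (x := Uf x ε) (y := Vf x y ε) (Uf_transc H h0) (Vf_sq H h1)
  have hψu : ∀ ε h0 h1, ψ ε h0 h1 u = Uf x ε := fun ε h0 h1 => phi_x _ _
  have hψv : ∀ ε h0 h1, ψ ε h0 h1 (yf f4) = Vf x y ε := fun ε h0 h1 => phi_y _ _
  -- the line bundles
  let L : LineBundle (Kf f4) := lpole H4.curve (Units.mk0 u hu0)
  have hUne : ∀ ε : ℂ, ε ≠ 0 → Uf x ε ≠ 0 := fun ε hε h0 => by
    have := Uf_transc H hε
    rw [h0] at this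
    exact this isAlgebraic_zero
  let M : ∀ ε : ℂ, ε ≠ 0 → LineBundle (Kf f6) := fun ε h0 =>
    lpole H.curve (Units.mk0 (Uf x ε) (hUne ε h0))
  have hpull : ∀ ε h0 h1, IsPullback (ψ ε h0 h1) L (M ε h0) := by
    intro ε h0 h1 v p hvp
    have hM : v.val ((M ε h0).frame v : Kf f6) = max 1 (v.val (Uf x ε)) := lpole_val _ _ _
    have hL : p.val (L.frame p : Kf f4) = max 1 (p.val u) := lpole_val _ _ _
    rw [hM]
    have hcomp : ∀ a b : Kf f4, a ≠ 0 → b ≠ 0 → p.val a = p.val b →
        v.val (ψ ε h0 h1 a) = v.val (ψ ε h0 h1 b) := by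
      intro a b ha hb hab
      have hb' : v.val (ψ ε h0 h1 b) ≠ 0 := v.val_ne_zero ((map_ne_zero _).2 hb)
      have ha' : v.val (ψ ε h0 h1 a) ≠ 0 := v.val_ne_zero ((map_ne_zero _).2 ha)
      have h2 := (hvp (a / b)).2 (by
        rw [map_div₀, hab, div_self (p.val_ne_zero hb)])
      have h3 := (hvp (b / a)).2 (by
        rw [map_div₀, hab, div_self (p.val_ne_zero hb)])
      rw [map_div₀, map_div₀] at h2 h3
      exact le_antisymm ((div_le_one₀ (zero_lt_iff.2 hb')).1 h2)
        ((div_le_one₀ (zero_lt_iff.2 ha')).1 h3)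
    rcases le_or_gt (p.val u) 1 with h2 | h2
    · rw [max_eq_left h2] at hL
      have h3 := hcomp _ 1 (Units.ne_zero _) one_ne_zero (by rw [hL, map_one])
      rw [h3, map_one, map_one]
      apply max_eq_left
      rw [← hψu ε h0 h1]
      exact (hvp u).2 h2
    · rw [max_eq_right h2.le] at hL
      have h3 := hcomp _ u (Units.ne_zero _) hu0 hL
      rw [h3, hψu ε h0 h1]
      apply max_eq_right
      by_contra hcon
      rw [not_le, ← hψu ε h0 h1] at hcon
      exact absurd ((hvp u).1 hcon.le) (not_le.2 h2)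
  refine ⟨Kf f4, Kf f6, inferInstance, inferInstance, inferInstance, inferInstance, H4.curve,
    hyp_genus H4 le_rfl f4_natDegree, H.curve, hyp_genus H (by norm_num) f6_natDegree,
    ⟨u, yf f4, adjoinf (f := f4), by rw [H4.eq, aeval_f4]⟩,
    ⟨x, y, adjoinf (f := f6), by rw [H.eq, aeval_f6]⟩, L, ?_, ?_⟩
  · change (lpole H4.curve (Units.mk0 u hu0)).degree = 2
    rw [Pool.Agent.W518.EG.lpole_degree]
    exact H4.degP_x
  intro n hn
  let E : Fin n → ℂ := fun i => if (i : ℕ) = 0 then 1 else ω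
  have hE : ∀ i, E i = 1 ∨ E i = ω := by
    intro i
    by_cases hi : (i : ℕ) = 0
    · exact Or.inl (by simp [E, hi])
    · exact Or.inr (by simp [E, hi])
  have hE0 : ∀ i, E i ≠ 0 := by
    intro i
    rcases hE i with h | h
    · rw [h]
      exact one_ne_zero
    · rw [h]
      exact hω0
  have hE6 : ∀ i, E i ^ 6 = 1 := by
    intro i
    rcases hE i with h | h
    · rw [h, one_pow]
    · rw [h, hω6]
  have hsurj : ∀ ε : ℂ, (ε = 1 ∨ ε = ω) → ∃ i, E i = ε := by
    rintro ε (rfl | rfl)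
    · exact ⟨⟨0, by omega⟩, by simp [E]⟩
    · exact ⟨⟨1, by omega⟩, by simp [E]⟩
  refine ⟨fun i => ψ (E i) (hE0 i) (hE6 i), ⟨⟨?_, ?_⟩, fun i => M (E i) (hE0 i), fun i => ?_, ?_⟩⟩
  · intro v w h
    refine inj6 H hω3 hω2 fun ε hε α => ?_
    obtain ⟨i, rfl⟩ := hsurj ε hε
    obtain ⟨p, hv, hw⟩ := h i
    have e1 := hψu (E i) (hE0 i) (hE6 i)
    have e2 := hψv (E i) (hE0 i) (hE6 i)
    refine ⟨fun h1 => ?_, fun h1 => ?_, fun h1 => ?_, fun h1 => ?_⟩
    · rw [← e1] at h1 ⊢
      exact LiesOver.rs hv hw h1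
    · rw [← e2] at h1 ⊢
      exact LiesOver.rs hv hw h1
    · rw [← e1, ← map_inv₀] at h1 ⊢
      exact LiesOver.rs hv hw h1
    · rw [← e1, ← e2, ← map_inv₀, ← map_pow, ← map_mul] at h1 ⊢
      exact LiesOver.rs hv hw h1
  · intro v
    obtain ⟨ε, hε, h⟩ := imm6 H hω0 hω2 v
    obtain ⟨i, rfl⟩ := hsurj ε hε
    have e1 := hψu (E i) (hE0 i) (hE6 i)
    have e2 := hψv (E i) (hE0 i) (hE6 i)
    refine ⟨i, ?_⟩
    rcases h with ⟨α, h⟩ | h | h
    · refine ⟨u - algebraMap ℂ _ α, ?_⟩
      rw [map_sub, AlgHom.commutes, e1]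
      exact h
    · exact ⟨yf f4, by rw [e2]; exact h⟩
    · exact ⟨u⁻¹, by rw [map_inv₀, e1]; exact h⟩
  · exact hpull (E i) (hE0 i) (hE6 i)
  · intro i j
    refine ⟨1, one_pos, 1, one_ne_zero, fun v => ?_⟩
    have h1 : v.val ((M (E i) (hE0 i)).frame v : Kf f6) = max 1 (v.val (Uf x (E i))) :=
      lpole_val _ _ _
    have h2 : v.val ((M (E j) (hE0 j)).frame v : Kf f6) = max 1 (v.val (Uf x (E j))) :=
      lpole_val _ _ _
    rw [pow_one, pow_one, h1, h2, max_val H v (hE0 i), max_val H v (hE0 j), map_one, one_mul]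

end Pool.Agent.Results.MP_d64a6e_ag.GenusTwo
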